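import Mathlib

set_option autoImplicit false

/-!
# Directed `p`-domination of the complete `r`-uniform hypergraph
-/

namespace Pool.Agent.R732.DD

open Finset

/-- the edges of `H(n,r)`: the sets of `r` vertices -/
abbrev Edge (r n : ℕ) : Type := {E : Finset (Fin n) // E.card = r}

/-- an orientation orders the `r` vertices of each edge `E`: `D E i` is the `(i + 1)`-st vertex of `E` -/
abbrev Orientation (r n : ℕ) : Type := (E : Edge r n) → (Fin r ≃ {x : Fin n // x ∈ E.1})

/-- `S` is a directed `p`-dominating set: every vertex outside `S` lies in an edge whose first `p` vertices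
are in `S` -/
def Dominating (p : ℕ) {r n : ℕ} (D : Orientation r n) (S : Finset (Fin n)) : Prop :=
  ∀ u : Fin n, u ∉ S → ∃ E : Edge r n, u ∈ E.1 ∧ ∀ i : Fin r, (i : ℕ) < p → (D E i).1 ∈ S

/-- the minimum size of a directed `p`-dominating set of `D` -/
noncomputable def gam (p : ℕ) {r n : ℕ} (D : Orientation r n) : ℕ :=
  sInf {m | ∃ S : Finset (Fin n), Dominating p D S ∧ S.card = m}

/-- the upper directed `p`-domination number of `H(n,r)`: the maximum of `gam p D` over all orientations -/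
noncomputable def Gam (p r n : ℕ) : ℕ := sSup {m | ∃ D : Orientation r n, gam p D = m}

variable {p r n : ℕ}

lemma dom_univ (D : Orientation r n) : Dominating p D univ := fun u hu => absurd (mem_univ u) hu

lemma gam_le (D : Orientation r n) : gam p D ≤ n :=
  Nat.sInf_le ⟨univ, dom_univ D, by rw [card_univ, Fintype.card_fin]⟩

lemma gam_le_of (D : Orientation r n) (S : Finset (Fin n)) (hS : Dominating p D S) : gam p D ≤ S.card :=
  Nat.sInf_le ⟨S, hS, rfl⟩

lemma gam_ge {k : ℕ} (D : Orientation r n) (h : ∀ S : Finset (Fin n), S.card ≤ k → ¬ Dominating p D S) :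
    k + 1 ≤ gam p D := by
  have hne : {m | ∃ S : Finset (Fin n), Dominating p D S ∧ S.card = m}.Nonempty := ⟨_, univ, dom_univ D, rfl⟩
  obtain ⟨S, hS, hc⟩ := Nat.sInf_mem hne
  by_contra hcon
  have hlt : gam p D ≤ k := by omega
  exact h S (by rw [hc]; exact hlt) hS

lemma Gam_ge {k : ℕ} (D : Orientation r n) (h : k ≤ gam p D) : k ≤ Gam p r n := by
  refine h.trans ?_
  refine le_csSup ⟨n, ?_⟩ ⟨D, rfl⟩
  rintro m ⟨D', rfl⟩
  exact gam_le D'

lemma Gam_le {k : ℕ} (h : ∀ D : Orientation r n, gam p D ≤ k) : Gam p r n ≤ k := by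
  unfold Gam
  rcases Set.eq_empty_or_nonempty {m | ∃ D : Orientation r n, gam p D = m} with h0 | h0
  · rw [h0]
    simp
  · apply csSup_le h0
    rintro m ⟨D, rfl⟩
    exact h D

/-- an ordering of `E` which starts with `F` -/
lemma exists_order (E : Edge r n) (F : Finset (Fin n)) (hFE : F ⊆ E.1) (hF : F.card = p) :
    ∃ e : Fin r ≃ {x : Fin n // x ∈ E.1}, ∀ f ∈ F, ∃ i : Fin r, (i : ℕ) < p ∧ (e i).1 = f := by
  classical
  have hcard : Fintype.card {x : Fin n // x ∈ E.1} = r := by
    rw [Fintype.card_coe]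
    exact E.2
  have hpr : p ≤ r := by
    rw [← hF, ← E.2]
    exact card_le_card hFE
  let e0 : Fin r ≃ {x : Fin n // x ∈ E.1} := (Fintype.equivFinOfCardEq hcard).symm
  let a : {x : Fin r // (x : ℕ) < p} ≃ Fin p :=
    { toFun := fun x => ⟨x.1, x.2⟩
      invFun := fun i => ⟨⟨i, lt_of_lt_of_le i.2 hpr⟩, i.2⟩
      left_inv := fun x => by simp
      right_inv := fun i => by simp }
  let b : {x : Fin r // (e0 x).1 ∈ F} ≃ {y : Fin n // y ∈ F} :=
    { toFun := fun x => ⟨(e0 x.1).1, x.2⟩
      invFun := fun y => ⟨e0.symm ⟨y.1, hFE y.2⟩, by simp⟩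
      left_inv := fun x => by simp
      right_inv := fun i => by simp }
  let c : {x : Fin r // (x : ℕ) < p} ≃ {x : Fin r // (e0 x).1 ∈ F} :=
    a.trans ((F.equivFinOfCardEq hF).symm.trans b.symm)
  refine ⟨c.extendSubtype.trans e0, fun f hf => ?_⟩
  have h1 : c.extendSubtype (c.symm (b.symm ⟨f, hf⟩)).1 = (b.symm ⟨f, hf⟩).1 := by
    rw [Equiv.extendSubtype_apply_of_mem c _ (c.symm (b.symm ⟨f, hf⟩)).2]
    simp
  refine ⟨(c.symm (b.symm ⟨f, hf⟩)).1, (c.symm (b.symm ⟨f, hf⟩)).2, ?_⟩
  rw [Equiv.trans_apply, h1]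
  show (e0 (e0.symm ⟨f, hFE hf⟩)).1 = f
  rw [Equiv.apply_symm_apply]

/-- From a relation on the vertices in which every set of at most `k` vertices is dominated by one vertex, and
every set of `r` vertices contains `p` vertices which are not dominated by one vertex of the set. -/
theorem of_rel {k : ℕ} (R : Fin n → Fin n → Prop) (hirr : ∀ a, ¬ R a a)
    (hdom : ∀ S : Finset (Fin n), S.card ≤ k → ∃ u, ∀ s ∈ S, R u s)
    (hloc : ∀ E : Finset (Fin n), E.card = r → ∃ F ⊆ E, F.card = p ∧ ∀ u ∈ E, ¬ ∀ f ∈ F, R u f) :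
    k + 1 ≤ Gam p r n := by
  have hor : ∀ E : Edge r n, ∃ e : Fin r ≃ {x : Fin n // x ∈ E.1}, ∀ u ∈ E.1, ∃ i : Fin r, (i : ℕ) < p ∧
      ¬ R u (e i).1 := by
    intro E
    obtain ⟨F, hFE, hF, hu⟩ := hloc E.1 E.2
    obtain ⟨e, he⟩ := exists_order E F hFE hF
    refine ⟨e, fun u huE => ?_⟩
    have h1 := hu u huE
    push Not at h1
    obtain ⟨f, hf, hR⟩ := h1
    obtain ⟨i, hi, hei⟩ := he f hf
    exact ⟨i, hi, by rw [hei]; exact hR⟩
  choose D hD using hor
  refine Gam_ge D (gam_ge D ?_)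
  intro S hS hd
  obtain ⟨u, hu⟩ := hdom S hS
  have huS : u ∉ S := fun h => hirr _ (hu u h)
  obtain ⟨E, huE, hE⟩ := hd u huS
  obtain ⟨i, hi, hR⟩ := hD E u huE
  exact hR (hu _ (hE i hi))

/-- the same for a relation on a set with at most `n` elements -/
theorem of_rel' {V : Type} [Fintype V] [Nonempty V] {k : ℕ} (R : V → V → Prop) (hirr : ∀ a, ¬ R a a)
    (hn : Fintype.card V ≤ n)
    (hdom : ∀ S : Finset V, S.card ≤ k → ∃ u, ∀ s ∈ S, R u s)
    (hloc : ∀ π : Fin n → V, ∀ E : Finset (Fin n), E.card = r →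
      ∃ F ⊆ E, F.card = p ∧ ∀ u ∈ E, ¬ ∀ f ∈ F, R (π u) (π f)) :
    k + 1 ≤ Gam p r n := by
  classical
  obtain ⟨π, hπ⟩ : ∃ π : Fin n → V, Function.Surjective π := by
    obtain ⟨e⟩ : Nonempty (V ↪ Fin n) := Function.Embedding.nonempty_of_card_le (by
      rw [Fintype.card_fin]; exact hn)
    exact ⟨Function.invFun e, Function.invFun_surjective e.injective⟩
  refine of_rel (fun a b => R (π a) (π b)) (fun a => hirr _) (fun S hS => ?_) (hloc π)
  obtain ⟨v, hv⟩ := hdom (S.image π) (card_image_le.trans hS)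
  obtain ⟨u, rfl⟩ := hπ v
  exact ⟨u, fun s hs => hv _ (mem_image_of_mem π hs)⟩

/-- If every at most `p` elements of `E` are dominated by an element of `E`, then `E` has at least
`2 ^ (p + 1) - 1` elements. -/
theorem schutte {V : Type} [DecidableEq V] (R : V → V → Prop) (hirr : ∀ a, ¬ R a a)
    (hanti : ∀ a b, R a b → ¬ R b a) : ∀ (p : ℕ) (E : Finset V),
      (∀ F ⊆ E, F.card ≤ p → ∃ u ∈ E, ∀ f ∈ F, R u f) → 2 ^ (p + 1) ≤ E.card + 1 := by
  classical
  intro p
  induction p with
  | zero =>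
    intro E h
    obtain ⟨u, hu, -⟩ := h ∅ (empty_subset _) (by simp)
    have := card_pos.2 ⟨u, hu⟩
    simpa using this
  | succ p ih =>
    intro E h
    obtain ⟨u0, hu0, -⟩ := h ∅ (empty_subset _) (by simp)
    -- a vertex of small in-degree
    obtain ⟨v, hv, hdeg⟩ : ∃ v ∈ E, 2 * (E.filter (fun u => R u v)).card + 1 ≤ E.card := by
      by_contra hcon
      push Not at hcon
      have h1 : ∑ v ∈ E, (E.filter (fun u => R u v)).card = ∑ v ∈ E, (E.filter (fun u => R v u)).card := by
        simp only [card_filter]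
        rw [sum_comm]
      have h2 : ∀ v ∈ E, (E.filter (fun u => R u v)).card + (E.filter (fun u => R v u)).card + 1 ≤ E.card := by
        intro v hv
        have hd : Disjoint (E.filter (fun u => R u v)) (E.filter (fun u => R v u)) := by
          rw [disjoint_filter]
          intro u _ h3 h4
          exact hanti _ _ h3 h4
        rw [← card_union_of_disjoint hd]
        have h5 : (E.filter (fun u => R u v)) ∪ (E.filter (fun u => R v u)) ⊆ E.erase v := by
          intro u hu
          rw [mem_union, mem_filter, mem_filter] at hu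
          rw [mem_erase]
          rcases hu with ⟨h3, h4⟩ | ⟨h3, h4⟩
          · exact ⟨fun h6 => hirr v (by rw [h6] at h4; exact h4), h3⟩
          · exact ⟨fun h6 => hirr v (by rw [h6] at h4; exact h4), h3⟩
        have h6 := card_le_card h5
        rw [card_erase_of_mem hv] at h6
        have := card_pos.2 ⟨v, hv⟩
        omega
      have h3 : ∑ v ∈ E, ((E.filter (fun u => R u v)).card + (E.filter (fun u => R v u)).card + 1) ≤
          ∑ v ∈ E, E.card := sum_le_sum h2
      have h4 : ∑ v ∈ E, E.card < ∑ v ∈ E, (2 * (E.filter (fun u => R u v)).card + 1) :=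
        sum_lt_sum_of_nonempty ⟨u0, hu0⟩ (fun v hv => hcon v hv)
      rw [sum_add_distrib, sum_add_distrib, ← h1] at h3
      rw [sum_add_distrib, ← mul_sum] at h4
      omega
    have h1 := ih (E.filter (fun u => R u v)) (by
      intro F hF hFp
      obtain ⟨u, hu, hdom⟩ := h (insert v F) (by
        intro x hx
        rw [mem_insert] at hx
        rcases hx with rfl | hx
        · exact hv
        · exact (mem_filter.1 (hF hx)).1) ((card_insert_le _ _).trans (by omega))
      exact ⟨u, mem_filter.2 ⟨hu, hdom v (mem_insert_self _ _)⟩, fun f hf => hdom f (mem_insert_of_mem hf)⟩)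
    rw [pow_succ]
    omega

/-- an undominated set of `p` elements -/
theorem undominated {V : Type} [DecidableEq V] (R : V → V → Prop) (hirr : ∀ a, ¬ R a a)
    (hanti : ∀ a b, R a b → ¬ R b a) (p : ℕ) (E : Finset V) (hp : p ≤ E.card)
    (hE : E.card + 1 < 2 ^ (p + 1)) : ∃ F ⊆ E, F.card = p ∧ ∀ u ∈ E, ¬ ∀ f ∈ F, R u f := by
  by_contra hcon
  push Not at hcon
  have := schutte R hirr hanti p E (by
    intro F hF hFp
    obtain ⟨F', hFF', hF'E, hF'⟩ := exists_subsuperset_card_eq hF hFp hp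
    obtain ⟨u, hu, hd⟩ := hcon F' hF'E hF'
    exact ⟨u, hu, fun f hf => hd f (hFF' hf)⟩)
  omega

end Pool.Agent.R732.DD
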