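import Mathlib

set_option autoImplicit false

/-!
# A matrix with an all-one column on any `k` rows and an all-zero row on any `k` columns
-/

namespace Pool.Agent.R732.DD

open Finset

/-! ### A matrix -/

lemma card_rows (N k : ℕ) (g : Fin k → Fin N) :
    2 ^ N ≤ 2 ^ k * ((univ : Finset (Fin N → Bool)).filter (fun ρ => ∀ j, ρ (g j) = false)).card := by
  classical
  have h : (univ : Finset (Fin N → Bool)).card ≤ ((univ : Finset (Fin k → Bool)) ×ˢ
      ((univ : Finset (Fin N → Bool)).filter (fun ρ => ∀ j, ρ (g j) = false))).card := by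
    refine card_le_card_of_injOn
      (fun ρ => (fun j => ρ (g j), fun i => if i ∈ univ.image g then false else ρ i)) ?_ ?_
    · intro ρ _
      rw [mem_coe, mem_product]
      refine ⟨mem_univ _, ?_⟩
      rw [mem_filter]
      refine ⟨mem_univ _, fun j => ?_⟩
      show (if g j ∈ univ.image g then false else ρ (g j)) = false
      rw [if_pos (mem_image_of_mem g (mem_univ j))]
    · intro ρ _ σ _ h
      simp only [Prod.mk.injEq] at h
      funext i
      by_cases hi : i ∈ univ.image g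
      · obtain ⟨j, -, rfl⟩ := mem_image.1 hi
        exact congrFun h.1 j
      · have h2 := congrFun h.2 i
        rw [if_neg hi, if_neg hi] at h2
        exact h2
  rw [card_product, card_univ, card_univ] at h
  simpa using h

lemma card_bad (N k : ℕ) (g : Fin k → Fin N) :
    (((univ : Finset (Fin N → Fin N → Bool)).filter (fun M => ∀ i, ¬ ∀ j, M i (g j) = false)).card : ℝ) ≤
      (2 ^ N * (1 - 1 / 2 ^ k)) ^ N := by
  classical
  have h1 : (univ : Finset (Fin N → Fin N → Bool)).filter (fun M => ∀ i, ¬ ∀ j, M i (g j) = false) =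
      Fintype.piFinset (fun _ : Fin N => (univ : Finset (Fin N → Bool)).filter
        (fun ρ => ¬ ∀ j, ρ (g j) = false)) := by
    ext M
    simp only [mem_filter, mem_univ, true_and, Fintype.mem_piFinset]
  rw [h1, Fintype.card_piFinset, prod_const, card_univ, Fintype.card_fin, Nat.cast_pow]
  have h2 := card_rows N k g
  have h3 := card_filter_add_card_filter_not (s := (univ : Finset (Fin N → Bool)))
    (fun ρ => ∀ j, ρ (g j) = false)
  rw [card_univ] at h3
  have h4 : Fintype.card (Fin N → Bool) = 2 ^ N := by simp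
  rw [h4] at h3
  set z := ((univ : Finset (Fin N → Bool)).filter (fun ρ => ∀ j, ρ (g j) = false)).card with hz
  set y := ((univ : Finset (Fin N → Bool)).filter (fun ρ => ¬ ∀ j, ρ (g j) = false)).card with hy
  have h5 : (z : ℝ) + y = 2 ^ N := by exact_mod_cast h3
  have h6 : (2 : ℝ) ^ N ≤ 2 ^ k * z := by exact_mod_cast h2
  apply pow_le_pow_left₀ (Nat.cast_nonneg _)
  have h7 : (2 : ℝ) ^ N / 2 ^ k ≤ z := by
    rw [div_le_iff₀ (by positivity)]
    linarith
  have h8 : (2 : ℝ) ^ N * (1 - 1 / 2 ^ k) = 2 ^ N - 2 ^ N / 2 ^ k := by ring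
  rw [h8]
  linarith

lemma exists_matrix (k N : ℕ) (hN : 2 * (N : ℝ) ^ k * (1 - 1 / 2 ^ k) ^ N < 1) :
    ∃ M : Fin N → Fin N → Bool, (∀ f : Fin k → Fin N, ∃ j, ∀ i, M (f i) j = true) ∧
      ∀ g : Fin k → Fin N, ∃ i, ∀ j, M i (g j) = false := by
  classical
  by_contra hcon
  set b : ℝ := (2 ^ N * (1 - 1 / 2 ^ k)) ^ N with hb
  let B0 : (Fin k → Fin N) → Finset (Fin N → Fin N → Bool) := fun g =>
    univ.filter (fun M => ∀ i, ¬ ∀ j, M i (g j) = false)
  let B1 : (Fin k → Fin N) → Finset (Fin N → Fin N → Bool) := fun g =>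
    univ.filter (fun M => ∀ j, ¬ ∀ i, M (g i) j = true)
  have h0 : ∀ g, ((B0 g).card : ℝ) ≤ b := fun g => card_bad N k g
  have h1 : ∀ g, ((B1 g).card : ℝ) ≤ b := by
    intro g
    refine le_trans ?_ (h0 g)
    rw [Nat.cast_le]
    refine card_le_card_of_injOn (fun M i j => !(M j i)) ?_ ?_
    · intro M hM
      rw [mem_coe, mem_filter] at hM
      rw [mem_coe, mem_filter]
      refine ⟨mem_univ _, fun i h => hM.2 i (fun j => ?_)⟩
      have h2 := h j
      simpa using h2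
    · intro M _ M' _ h
      funext i j
      have h2 := congrFun (congrFun h j) i
      simpa using h2
  have hcov : (univ : Finset (Fin N → Fin N → Bool)) ⊆
      (univ : Finset (Fin k → Fin N)).biUnion B1 ∪ (univ : Finset (Fin k → Fin N)).biUnion B0 := by
    intro M _
    by_contra h
    rw [mem_union, not_or] at h
    apply hcon
    refine ⟨M, fun f => ?_, fun g => ?_⟩
    · by_contra h2
      push Not at h2
      apply h.1
      rw [mem_biUnion]
      refine ⟨f, mem_univ _, ?_⟩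
      rw [mem_filter]
      refine ⟨mem_univ _, fun j h3 => ?_⟩
      obtain ⟨i, hi⟩ := h2 j
      exact hi (h3 i)
    · by_contra h2
      push Not at h2
      apply h.2
      rw [mem_biUnion]
      refine ⟨g, mem_univ _, ?_⟩
      rw [mem_filter]
      refine ⟨mem_univ _, fun i h3 => ?_⟩
      obtain ⟨j, hj⟩ := h2 i
      exact hj (h3 j)
  have h2 := (card_le_card hcov).trans (card_union_le _ _)
  have h3 : ∀ B : (Fin k → Fin N) → Finset (Fin N → Fin N → Bool), (∀ g, ((B g).card : ℝ) ≤ b) →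
      (((univ : Finset (Fin k → Fin N)).biUnion B).card : ℝ) ≤ (N : ℝ) ^ k * b := by
    intro B hB
    calc (((univ : Finset (Fin k → Fin N)).biUnion B).card : ℝ) ≤
          ((∑ g : Fin k → Fin N, (B g).card : ℕ) : ℝ) := by exact_mod_cast card_biUnion_le
      _ ≤ ∑ g : Fin k → Fin N, b := by
          rw [Nat.cast_sum]
          exact sum_le_sum fun g _ => hB g
      _ = (N : ℝ) ^ k * b := by
          rw [sum_const, card_univ, nsmul_eq_mul]
          simp
  have h4 : ((univ : Finset (Fin N → Fin N → Bool)).card : ℝ) = (2 ^ N) ^ N := by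
    rw [card_univ]
    simp
  have h5 : (((univ : Finset (Fin N → Fin N → Bool)).card : ℕ) : ℝ) ≤ (N : ℝ) ^ k * b + (N : ℝ) ^ k * b := by
    refine le_trans (by exact_mod_cast h2) (add_le_add (h3 B1 h1) (h3 B0 h0))
  rw [h4, hb, mul_pow] at h5
  have h6 : (0 : ℝ) < (2 ^ N) ^ N := by positivity
  nlinarith

lemma exists_matrix' (k : ℕ) (hk : 1 ≤ k) : ∃ N : ℕ, 1 ≤ N ∧ N ≤ 8 ^ k ∧
    ∃ M : Fin N → Fin N → Bool, (∀ f : Fin k → Fin N, ∃ j, ∀ i, M (f i) j = true) ∧
      ∀ g : Fin k → Fin N, ∃ i, ∀ j, M i (g j) = false := by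
  obtain ⟨j, rfl⟩ : ∃ j, k = j + 1 := ⟨k - 1, by omega⟩
  have hj : j + 1 ≤ 2 ^ j := Nat.lt_two_pow_self
  set k := j + 1 with hkj
  have h1 : 4 * k ^ 2 * 2 ^ k ≤ 8 ^ k := by
    have e : 8 ^ k = 4 * (2 ^ j) ^ 2 * 2 ^ k := by
      rw [hkj, show (8 : ℕ) = 2 ^ 3 by norm_num, ← pow_mul, ← pow_mul,
        show (4 : ℕ) = 2 ^ 2 by norm_num, ← pow_add, ← pow_add]
      congr 1
      ring
    rw [e]
    gcongr
  have hpos : 1 ≤ 4 * k ^ 2 * 2 ^ k := Nat.succ_le_of_lt (by positivity)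
  refine ⟨4 * k ^ 2 * 2 ^ k, hpos, h1, exists_matrix k _ ?_⟩
  set N := 4 * k ^ 2 * 2 ^ k with hN
  have h3 : (0 : ℝ) ≤ 1 - 1 / 2 ^ k := by
    rw [sub_nonneg, div_le_one (by positivity)]
    exact one_le_pow₀ (by norm_num)
  have h2 : (1 - 1 / 2 ^ k : ℝ) ^ N ≤ Real.exp (-(4 * k ^ 2 : ℕ)) := by
    calc (1 - 1 / 2 ^ k : ℝ) ^ N ≤ (Real.exp (-(1 / 2 ^ k))) ^ N :=
          pow_le_pow_left₀ h3 (Real.one_sub_le_exp_neg _) _
      _ = Real.exp (-(4 * k ^ 2 : ℕ)) := by
          rw [← Real.exp_nat_mul]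
          congr 1
          rw [hN]
          push_cast
          field_simp
  have h7 : (0 : ℝ) ≤ (1 - 1 / 2 ^ k) ^ N := pow_nonneg h3 _
  have h4 : 2 * (N : ℝ) ^ k ≤ 2 ^ (4 * k ^ 2) := by
    have h5 : 2 * N ^ k ≤ 2 ^ (4 * k ^ 2) := by
      calc 2 * N ^ k ≤ 2 * (8 ^ k) ^ k := by gcongr
        _ = 2 ^ (3 * k ^ 2 + 1) := by
          rw [show (8 : ℕ) = 2 ^ 3 by norm_num, ← pow_mul, ← pow_mul, pow_succ' 2 (3 * k ^ 2)]
          congr 2
          ring
        _ ≤ 2 ^ (4 * k ^ 2) := by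
          apply Nat.pow_le_pow_right (by norm_num)
          have : 1 ≤ k ^ 2 := Nat.one_le_pow _ _ (by omega)
          omega
    exact_mod_cast h5
  have h6 : (2 : ℝ) ^ (4 * k ^ 2) < Real.exp (4 * k ^ 2 : ℕ) := by
    rw [← Real.exp_one_pow]
    apply pow_lt_pow_left₀ _ (by norm_num) (by positivity)
    have := Real.exp_one_gt_d9
    linarith
  calc 2 * (N : ℝ) ^ k * (1 - 1 / 2 ^ k) ^ N ≤ 2 ^ (4 * k ^ 2) * Real.exp (-(4 * k ^ 2 : ℕ)) := by
        gcongr
    _ < Real.exp (4 * k ^ 2 : ℕ) * Real.exp (-(4 * k ^ 2 : ℕ)) := by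
        apply mul_lt_mul_of_pos_right h6 (Real.exp_pos _)
    _ = 1 := by rw [← Real.exp_add, add_neg_cancel, Real.exp_zero]

lemma exists_enum {V : Type} [Nonempty V] (k : ℕ) (S : Finset V) (hS : S.card ≤ k) :
    ∃ f : Fin k → V, ∀ s ∈ S, ∃ i, f i = s := by
  classical
  rcases S.eq_empty_or_nonempty with rfl | ⟨s0, hs0⟩
  · exact ⟨fun _ => Classical.arbitrary V, fun s hs => absurd hs (notMem_empty s)⟩
  · let e := S.equivFin
    refine ⟨fun i => if h : (i : ℕ) < S.card then (e.symm ⟨i, h⟩).1 else s0, ?_⟩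
    intro s hs
    refine ⟨⟨(e ⟨s, hs⟩ : ℕ), lt_of_lt_of_le (e ⟨s, hs⟩).2 hS⟩, ?_⟩
    simp

end Pool.Agent.R732.DD
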